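import Pool.Agent.Work.MP_96a720_co.L.Final

/-!
A lower bound for the least size `m n` of a maximal no-three-in-line subset of the `n x n` grid:
`m n ≥ n ^ (2 / 3 + c)` for all large `n`, with an explicit (tiny) constant `c > 0`.
-/

set_option autoImplicit false

namespace Pool.Agent.Results.MP_96a720_co.LowerBound

open Pool.Agent.NTL

theorem result :
    ∃ N : ℕ, ∀ n ≥ N, (n : ℝ) ^ (2 / 3 + 1 / (4000 * 24 ^ 680) : ℝ) ≤ (m n : ℝ) := by
  obtain ⟨N, hN⟩ := bound
  refine ⟨N, fun n hn => ?_⟩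
  have hne : {k | ∃ S : Finset Pt, IsMax n S ∧ S.card = k}.Nonempty := by
    obtain ⟨S, hS⟩ := exists_isMax n
    exact ⟨S.card, S, hS, rfl⟩
  obtain ⟨S, hS, hcard⟩ := Nat.sInf_mem hne
  have hc : c0 = 1 / (4000 * 24 ^ 680) := rfl
  have h := hN n hn S hS
  rw [hc] at h
  unfold m
  rw [← hcard]
  exact h

end Pool.Agent.Results.MP_96a720_co.LowerBound
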